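import Pool.Agent.H91.HalfCircle

set_option autoImplicit false

open H91.HalfCircle in
theorem Pool.Agent.Results.MP_8e2370_an.NotConvex.result :
    ∃ (k : ℕ) (p α : Fin (k + 1) → ℝ) (j : Fin k), 3 ≤ k + 1 ∧ StrictMono p ∧
    (∀ l, 0 < α l) ∧ ∀ K : Set ℂ, IsClosed K → Convex ℝ K →
      frontier K ≠ (fun z : ℂ => ∑ l, (α l : ℂ) / (z - p l)) ''
        {z | ‖z - ((p j.castSucc + p j.succ) / 2 : ℝ)‖ = (p j.succ - p j.castSucc) / 2 ∧
          0 < z.im} :=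
  main
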